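import Mathlib
import Pool.Agent.R627.IrrCoset

/-!
# A faithful irreducible coset space with infinitely many minimal closed normal subgroups
-/

set_option autoImplicit false

namespace Pool.Agent.Results.MP_e825aa_al.InfinitelyMany

open Pool.Agent.R627.CosetDefs Pool.Agent.R627.IrrCoset

/-- There are a Hausdorff topological group `G` and a subgroup `H` such that `G/H` is a faithful
irreducible coset space and `G` has infinitely many minimal closed normal subgroups (even
infinitely many abelian ones). -/
theorem result : ∃ (G : Type) (_ : Group G) (_ : TopologicalSpace G) (_ : IsTopologicalGroup G)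
    (_ : T2Space G) (H : Subgroup G),
    IrreducibleCoset H ∧ FaithfulCoset H ∧
    {M : Subgroup G | MinClosedNormal M ∧ ∀ x ∈ M, ∀ y ∈ M, x * y = y * x}.Infinite := by
  obtain ⟨P⟩ := exists_par
  refine ⟨G P, inferInstance, inferInstance, inferInstance, inferInstance, H P,
    irreducible P, faithful P, ?_⟩
  refine Set.infinite_of_injective_forall_mem (f := fun i => V P i) ?_
    (fun i => ⟨minimal P i, fun x hx y hy => V_comm i hx hy⟩)
  intro i j hij
  by_contra hne
  have h1 := V_inf (P := P) hne
  have h2 : V P i = V P j := hij
  rw [← h2, inf_idem] at h1
  exact V_ne_bot i h1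

end Pool.Agent.Results.MP_e825aa_al.InfinitelyMany
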